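import Pool.Agent.U555.TQ.Space

set_option autoImplicit false

namespace Pool.Agent.U555.TQ

open Finset

abbrev I2 : Type := ℕ × ℕ

def top (K : ℕ) : Finset ℕ := Finset.Ico 1 (2 ^ K)

def bot (K : ℕ) : Finset ℕ := Finset.Ico (2 ^ K) (2 ^ K + K * 2 ^ K)

noncomputable def cf (K : ℕ) (C : Finset ℕ) (r : ℝ) : I2 →₀ ℝ := ∑ n ∈ C, Finsupp.single (K, n) r

theorem ev_cf (K : ℕ) (C : Finset ℕ) (r : ℝ) (c : I2 → ℝ) :
    ev (cf K C r) c = r * ∑ n ∈ C, c (K, n) := by
  unfold cf
  rw [ev_sum, Finset.mul_sum]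
  exact Finset.sum_congr rfl fun n _ => ev_single _ _ _

theorem cf_apply (K : ℕ) (C : Finset ℕ) (r : ℝ) (i : I2) :
    cf K C r i = if i.1 = K ∧ i.2 ∈ C then r else 0 := by
  classical
  unfold cf
  rw [Finsupp.finsetSum_apply]
  simp only [Finsupp.single_apply]
  by_cases h : i.1 = K ∧ i.2 ∈ C
  · rw [if_pos h, Finset.sum_eq_single i.2]
    · rw [if_pos (by rw [← h.1])]
    · intro n _ hn
      rw [if_neg]
      intro h'
      exact hn (congrArg Prod.snd h')
    · intro h'
      exact absurd h.2 h'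
  · rw [if_neg h]
    apply Finset.sum_eq_zero
    intro n hn
    rw [if_neg]
    intro h'
    apply h
    rw [← h']
    exact ⟨rfl, hn⟩

def Phi : Set (I2 →₀ ℝ) :=
  {φ | ∃ i, φ = Finsupp.single i 1} ∪
  {φ | ∃ (K j : ℕ) (C : Finset ℕ), C ⊆ Finset.Ico (2 ^ j) (2 ^ K) ∧ C.card ≤ 2 ^ j ∧
    φ = cf K C 1} ∪
  {φ | ∃ (K : ℕ) (C : Finset ℕ), C ⊆ bot K ∧
    φ = cf K C 1 + cf K (top K) ((C.card : ℝ) / (K * 2 ^ K))}

theorem Phi_1 (i : I2) : Finsupp.single i (1 : ℝ) ∈ Phi := Or.inl (Or.inl ⟨i, rfl⟩)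

theorem Phi_2 (K j : ℕ) (C : Finset ℕ) (hC : C ⊆ Finset.Ico (2 ^ j) (2 ^ K))
    (hc : C.card ≤ 2 ^ j) : cf K C 1 ∈ Phi := Or.inl (Or.inr ⟨K, j, C, hC, hc, rfl⟩)

theorem Phi_3 (K : ℕ) (C : Finset ℕ) (hC : C ⊆ bot K) :
    cf K C 1 + cf K (top K) ((C.card : ℝ) / (K * 2 ^ K)) ∈ Phi := Or.inr ⟨K, C, hC, rfl⟩

theorem card_bot (K : ℕ) (C : Finset ℕ) (hC : C ⊆ bot K) : C.card ≤ K * 2 ^ K := by
  refine (Finset.card_le_card hC).trans ?_
  unfold bot
  rw [Nat.card_Ico]
  omega

theorem rho_le (K : ℕ) (C : Finset ℕ) (hC : C ⊆ bot K) : (C.card : ℝ) / (K * 2 ^ K) ≤ 1 := by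
  apply div_le_one_of_le₀
  · exact_mod_cast card_bot K C hC
  · positivity

theorem rho_nonneg (K : ℕ) (C : Finset ℕ) : 0 ≤ (C.card : ℝ) / (K * 2 ^ K) := by positivity

theorem Phi_le (φ : I2 →₀ ℝ) (hφ : φ ∈ Phi) (i : I2) : |φ i| ≤ 1 := by
  rcases hφ with (⟨j, rfl⟩ | ⟨K, j, C, hC, hc, rfl⟩) | ⟨K, C, hC, rfl⟩
  · rw [Finsupp.single_apply]
    split_ifs <;> simp
  · rw [cf_apply]
    split_ifs <;> simp
  · rw [Finsupp.add_apply, cf_apply, cf_apply]
    by_cases h : i.1 = K ∧ i.2 ∈ C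
    · have : ¬ (i.1 = K ∧ i.2 ∈ top K) := by
        rintro ⟨_, h2⟩
        have h1 := hC h.2
        unfold bot at h1
        unfold top at h2
        rw [Finset.mem_Ico] at h1 h2
        omega
      rw [if_pos h, if_neg this]
      simp
    · rw [if_neg h, zero_add]
      split_ifs
      · rw [abs_of_nonneg (rho_nonneg K C)]
        exact rho_le K C hC
      · simp

section est

variable (c : I2 → ℝ) (R : ℝ) (hc1 : ∀ i, |c i| ≤ 1) (hR : ∀ ψ ∈ Phi, |ev ψ c| ≤ R)

include hR in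
theorem R_nonneg : 0 ≤ R := (abs_nonneg _).trans (hR _ (Phi_1 (0, 0)))

include hR in
theorem coord_le (i : I2) : |c i| ≤ R := by
  have := hR _ (Phi_1 i)
  rw [ev_single, one_mul] at this
  exact this

include hR in
theorem mid_le (K j : ℕ) (C : Finset ℕ) (hC : C ⊆ Finset.Ico (2 ^ j) (2 ^ K))
    (hc : C.card ≤ 2 ^ j) : |∑ n ∈ C, c (K, n)| ≤ R := by
  have := hR _ (Phi_2 K j C hC hc)
  rwa [ev_cf, one_mul] at this

include hR in
/-- sums over the upper part in terms of dyadic pieces -/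
theorem top_sum_le (K : ℕ) : ∀ k ≤ K, |∑ n ∈ Finset.Ico 1 (2 ^ k), c (K, n)| ≤ k * R := by
  intro k
  induction k with
  | zero => intro _; simp
  | succ k ih =>
    intro hk
    have h1 := ih (by omega)
    have h2 : |∑ n ∈ Finset.Ico (2 ^ k) (2 ^ (k + 1)), c (K, n)| ≤ R := by
      apply mid_le c R hR K k
      · apply Finset.Ico_subset_Ico_right
        exact Nat.pow_le_pow_right (by norm_num) hk
      · rw [Nat.card_Ico, pow_succ]
        omega
    have h3 : ∑ n ∈ Finset.Ico 1 (2 ^ (k + 1)), c (K, n) =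
        ∑ n ∈ Finset.Ico 1 (2 ^ k), c (K, n) +
        ∑ n ∈ Finset.Ico (2 ^ k) (2 ^ (k + 1)), c (K, n) := by
      rw [Finset.sum_Ico_consecutive]
      · exact Nat.one_le_two_pow
      · exact Nat.pow_le_pow_right (by norm_num) (by omega)
    rw [h3]
    refine (abs_add_le _ _).trans ?_
    push_cast
    linarith

include hc1 in
theorem top_sum_le' (K : ℕ) : |∑ n ∈ top K, c (K, n)| ≤ 2 ^ K := by
  refine (Finset.abs_sum_le_sum_abs _ _).trans ?_
  refine (Finset.sum_le_card_nsmul _ _ 1 fun n _ => hc1 _).trans ?_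
  unfold top
  rw [Nat.card_Ico, nsmul_eq_mul, mul_one]
  have : (((2 ^ K - 1 : ℕ)) : ℝ) ≤ ((2 ^ K : ℕ) : ℝ) := by
    exact_mod_cast Nat.sub_le _ _
  refine this.trans ?_
  push_cast
  exact le_rfl

include hR in
/-- cardinality of a constant-sign set in the upper part -/
theorem top_card (a : ℝ) (ha : 0 < a) (K : ℕ) (B : Finset ℕ) (hB : B ⊆ top K)
    (hBa : ∀ n ∈ B, a ≤ c (K, n)) : a * B.card ≤ 4 * R := by
  have hR0 := R_nonneg c R hR
  have hlow : ∀ C : Finset ℕ, C ⊆ B → a * C.card ≤ ∑ n ∈ C, c (K, n) := by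
    intro C hC
    have := Finset.card_nsmul_le_sum C (fun n => c (K, n)) a (fun n hn => hBa n (hC hn))
    rw [nsmul_eq_mul] at this
    linarith
  rcases Nat.lt_or_ge B.card 2 with h | h
  · have h1 : |∑ n ∈ B, c (K, n)| ≤ R := by
      apply mid_le c R hR K 0 B
      · exact hB
      · rw [pow_zero]; omega
    have h2 := hlow B (Finset.Subset.refl _)
    have h3 := le_abs_self (∑ n ∈ B, c (K, n))
    linarith
  · obtain ⟨j, hj1, hj2⟩ : ∃ j : ℕ, 2 ^ (j + 1) ≤ B.card ∧ B.card < 2 ^ (j + 2) := by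
      refine ⟨Nat.log 2 B.card - 1, ?_, ?_⟩
      · have h1 : 1 ≤ Nat.log 2 B.card := Nat.log_pos (by norm_num) h
        rw [Nat.sub_add_cancel h1]
        exact Nat.pow_log_le_self 2 (by omega)
      · have h1 : 1 ≤ Nat.log 2 B.card := Nat.log_pos (by norm_num) h
        have : Nat.log 2 B.card - 1 + 2 = Nat.log 2 B.card + 1 := by omega
        rw [this]
        exact Nat.lt_pow_succ_log_self (by norm_num) _
    have hsmall : (B.filter (fun n => n < 2 ^ j)).card ≤ 2 ^ j - 1 := by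
      have : B.filter (fun n => n < 2 ^ j) ⊆ Finset.Ico 1 (2 ^ j) := by
        intro n hn
        rw [Finset.mem_filter] at hn
        have := hB hn.1
        unfold top at this
        rw [Finset.mem_Ico] at this ⊢
        exact ⟨this.1, hn.2⟩
      refine (Finset.card_le_card this).trans ?_
      rw [Nat.card_Ico]
    have hsplit := Finset.card_filter_add_card_filter_not (s := B) (fun n => n < 2 ^ j)
    have hp : 0 < 2 ^ j := by positivity
    have hbig : 2 ^ j ≤ (B.filter (fun n => ¬ n < 2 ^ j)).card := by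
      rw [pow_succ] at hj1
      omega
    obtain ⟨C, hC, hCc⟩ := Finset.exists_subset_card_eq hbig
    have hCB : C ⊆ B := hC.trans (Finset.filter_subset _ _)
    have h1 : |∑ n ∈ C, c (K, n)| ≤ R := by
      apply mid_le c R hR K j C
      · intro n hn
        have h2 := hC hn
        rw [Finset.mem_filter] at h2
        have h3 := hB h2.1
        unfold top at h3
        rw [Finset.mem_Ico] at h3 ⊢
        exact ⟨by omega, h3.2⟩
      · rw [hCc]
    have h2 := hlow C hCB
    have h3 := le_abs_self (∑ n ∈ C, c (K, n))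
    rw [hCc] at h2
    have h4 : (B.card : ℝ) ≤ 4 * ((2 ^ j : ℕ) : ℝ) := by
      have : B.card ≤ 4 * 2 ^ j := by
        have : 2 ^ (j + 2) = 4 * 2 ^ j := by ring
        omega
      exact_mod_cast this
    nlinarith

include hc1 hR in
/-- cardinality of a constant-sign set in the lower part -/
theorem bot_card (a : ℝ) (ha : 0 < a) (ha1 : a ≤ 1) (K : ℕ) (B : Finset ℕ) (hB : B ⊆ bot K)
    (hBa : ∀ n ∈ B, a ≤ c (K, n)) : a ^ 2 * B.card ≤ 3 * R := by
  have hR0 := R_nonneg c R hR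
  have hlow : a * B.card ≤ ∑ n ∈ B, c (K, n) := by
    have := Finset.card_nsmul_le_sum B (fun n => c (K, n)) a (fun n hn => hBa n hn)
    rw [nsmul_eq_mul] at this
    linarith
  have h1 := hR _ (Phi_3 K B hB)
  rw [ev_add, ev_cf, ev_cf, one_mul] at h1
  set ρ : ℝ := (B.card : ℝ) / (K * 2 ^ K) with hρ
  set T : ℝ := ∑ n ∈ top K, c (K, n) with hT
  set S : ℝ := ∑ n ∈ B, c (K, n) with hS
  have hρ0 : 0 ≤ ρ := rho_nonneg K B
  have hρ1 : ρ ≤ 1 := rho_le K B hB
  have h2 : S ≤ R + ρ * |T| := by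
    have h3 := (abs_le.1 h1).2
    have h4 : -(ρ * T) ≤ ρ * |T| := by
      rw [← mul_neg]
      exact mul_le_mul_of_nonneg_left (neg_le_abs T) hρ0
    linarith
  rcases Nat.eq_zero_or_pos K with hK0 | hKpos
  · subst hK0
    have : B.card ≤ 0 := by
      have := card_bot 0 B hB
      simpa using this
    have h0 : (B.card : ℝ) = 0 := by exact_mod_cast Nat.le_zero.1 this
    rw [h0, mul_zero]
    positivity
  · have hKr : (0 : ℝ) < K := by exact_mod_cast hKpos
    have hB0 : (0 : ℝ) ≤ B.card := by positivity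
    rcases le_or_gt 2 (a * K) with h | h
    · -- large K
      have hT2 : |T| ≤ 2 ^ K := top_sum_le' c hc1 K
      have h3 : ρ * |T| ≤ B.card / K := by
        calc ρ * |T| ≤ ρ * 2 ^ K := mul_le_mul_of_nonneg_left hT2 hρ0
          _ = B.card / K := by
            rw [hρ]
            field_simp
      have h4 : (B.card : ℝ) / K ≤ a / 2 * B.card := by
        rw [div_le_iff₀ hKr]
        nlinarith
      have h5 : a * B.card ≤ 2 * R := by linarith
      nlinarith
    · have hT2 : |T| ≤ K * R := top_sum_le c R hR K K le_rfl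
      have h3 : ρ * |T| ≤ K * R := by
        calc ρ * |T| ≤ 1 * |T| := mul_le_mul_of_nonneg_right hρ1 (abs_nonneg _)
          _ = |T| := one_mul _
          _ ≤ K * R := hT2
      have h5 : a * B.card ≤ R + K * R := by linarith
      have h6 : a * (a * B.card) ≤ a * (R + K * R) := mul_le_mul_of_nonneg_left h5 ha.le
      nlinarith

end est

theorem neg_ev (ψ : I2 →₀ ℝ) (c : I2 → ℝ) : ev ψ (fun i => - c i) = - ev ψ c := by
  rw [ev_eq, ev_eq, ← Finset.sum_neg_distrib]
  exact Finset.sum_congr rfl fun i _ => by ring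

/-- near unconditionality on coefficients -/
theorem near (a : ℝ) (ha : 0 < a) (ha1 : a ≤ 1) : ∃ C : ℝ, 0 ≤ C ∧
    ∀ (c : I2 → ℝ) (R : ℝ), (∀ i, |c i| ≤ 1) →
      (∀ ψ ∈ Phi, |ev ψ c| ≤ R) → ∀ A : Finset I2, (∀ i ∈ A, a ≤ |c i|) →
      ∀ φ ∈ Phi, |∑ i ∈ A, c i * φ i| ≤ C * R := by
  classical
  refine ⟨14 / a ^ 2, by positivity, ?_⟩
  intro c R hc1 hR A hA φ hφ
  have hR0 := R_nonneg c R hR
  have hR' : ∀ ψ ∈ Phi, |ev ψ (fun i => - c i)| ≤ R := by
    intro ψ hψ
    rw [neg_ev, abs_neg]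
    exact hR ψ hψ
  have hc1' : ∀ i, |(fun i => - c i) i| ≤ 1 := fun i => by
    change |- c i| ≤ 1
    rw [abs_neg]
    exact hc1 i
  have ha2 : a ^ 2 ≤ 1 := by nlinarith
  have hC1 : 1 ≤ 14 / a ^ 2 := by
    rw [le_div_iff₀ (by positivity)]
    linarith
  have hRC : R ≤ 14 / a ^ 2 * R := by nlinarith
  rw [← ev_finset φ A c]
  set c' : I2 → ℝ := fun i => if i ∈ A then c i else 0 with hc'
  have hsumc : ∀ (K : ℕ) (C : Finset ℕ), ∑ n ∈ C, c' (K, n) =
      ∑ n ∈ C.filter (fun n => (K, n) ∈ A), c (K, n) := by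
    intro K C
    rw [Finset.sum_filter]
  -- cardinalities
  have hcard : ∀ (K : ℕ) (D : Finset ℕ) (N : ℝ), (∀ B ⊆ D, (∀ n ∈ B, a ≤ c (K, n)) →
      (B.card : ℝ) ≤ N) → (∀ B ⊆ D, (∀ n ∈ B, a ≤ - c (K, n)) → (B.card : ℝ) ≤ N) →
      |∑ n ∈ D, c' (K, n)| ≤ 2 * N := by
    intro K D N hp hn
    rw [hsumc]
    set E := D.filter (fun n => (K, n) ∈ A) with hE
    have h1 : |∑ n ∈ E, c (K, n)| ≤ E.card := by
      refine (Finset.abs_sum_le_sum_abs _ _).trans ?_
      refine (Finset.sum_le_card_nsmul _ _ 1 fun n _ => hc1 _).trans ?_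
      rw [nsmul_eq_mul, mul_one]
    have h2 := Finset.card_filter_add_card_filter_not (s := E) (fun n => 0 ≤ c (K, n))
    have h3 := hp (E.filter (fun n => 0 ≤ c (K, n)))
      ((Finset.filter_subset _ _).trans (Finset.filter_subset _ _)) (by
        intro n hn
        rw [Finset.mem_filter, hE, Finset.mem_filter] at hn
        have := hA _ hn.1.2
        rwa [abs_of_nonneg hn.2] at this)
    have h4 := hn (E.filter (fun n => ¬ 0 ≤ c (K, n)))
      ((Finset.filter_subset _ _).trans (Finset.filter_subset _ _)) (by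
        intro n hn
        rw [Finset.mem_filter, hE, Finset.mem_filter] at hn
        have := hA _ hn.1.2
        rwa [abs_of_neg (not_le.1 hn.2)] at this)
    have h5 : (E.card : ℝ) = ((E.filter (fun n => 0 ≤ c (K, n))).card : ℝ) +
        ((E.filter (fun n => ¬ 0 ≤ c (K, n))).card : ℝ) := by
      exact_mod_cast h2.symm
    linarith
  rcases hφ with (⟨i, rfl⟩ | ⟨K, j, C, hC, hc, rfl⟩) | ⟨K, C, hC, rfl⟩
  · rw [ev_single, one_mul]
    have h1 : |c' i| ≤ |c i| := by
      simp only [hc']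
      split_ifs
      · exact le_rfl
      · simp
    exact (h1.trans (coord_le c R hR i)).trans hRC
  · rw [ev_cf, one_mul, hsumc]
    refine (mid_le c R hR K j _ ((Finset.filter_subset _ _).trans hC)
      ((Finset.card_le_card (Finset.filter_subset _ _)).trans hc)).trans hRC
  · rw [ev_add, ev_cf, ev_cf, one_mul]
    have h1 : |∑ n ∈ C, c' (K, n)| ≤ 2 * (3 * R / a ^ 2) := by
      apply hcard
      · intro B hB hBa
        rw [le_div_iff₀ (by positivity), mul_comm]
        exact bot_card c R hc1 hR a ha ha1 K B (hB.trans hC) hBa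
      · intro B hB hBa
        rw [le_div_iff₀ (by positivity), mul_comm]
        exact bot_card (fun i => - c i) R hc1' hR' a ha ha1 K B (hB.trans hC) hBa
    have h2 : |∑ n ∈ top K, c' (K, n)| ≤ 2 * (4 * R / a) := by
      apply hcard
      · intro B hB hBa
        rw [le_div_iff₀ ha, mul_comm]
        exact top_card c R hR a ha K B hB hBa
      · intro B hB hBa
        rw [le_div_iff₀ ha, mul_comm]
        exact top_card (fun i => - c i) R hR' a ha K B hB hBa
    have h3 : |(C.card : ℝ) / (K * 2 ^ K) * ∑ n ∈ top K, c' (K, n)| ≤ 2 * (4 * R / a) := by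
      rw [abs_mul, abs_of_nonneg (rho_nonneg K C)]
      calc (C.card : ℝ) / (K * 2 ^ K) * |∑ n ∈ top K, c' (K, n)|
          ≤ 1 * |∑ n ∈ top K, c' (K, n)| :=
            mul_le_mul_of_nonneg_right (rho_le K C hC) (abs_nonneg _)
        _ = |∑ n ∈ top K, c' (K, n)| := one_mul _
        _ ≤ _ := h2
    refine (abs_add_le _ _).trans ?_
    have h4 : 4 * R / a ≤ 4 * R / a ^ 2 := by
      apply div_le_div_of_nonneg_left (by positivity) (by positivity)
      nlinarith
    have h5 : 14 / a ^ 2 * R = 2 * (3 * R / a ^ 2) + 2 * (4 * R / a ^ 2) := by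
      field_simp
      ring
    rw [h5]
    linarith

/-- the vectors which violate truncation quasi-greediness -/
noncomputable def FF (i : I2) : ℝ :=
  if i.2 < 2 ^ i.1 then 2 ^ i.1 / 2 ^ (Nat.log 2 i.2) else -1

theorem sum_FF (K : ℕ) : ∀ k ≤ K, ∑ n ∈ Finset.Ico 1 (2 ^ k), FF (K, n) = k * 2 ^ K := by
  intro k
  induction k with
  | zero => intro _; simp
  | succ k ih =>
    intro hk
    have h1 := ih (by omega)
    have h3 : ∑ n ∈ Finset.Ico 1 (2 ^ (k + 1)), FF (K, n) =
        ∑ n ∈ Finset.Ico 1 (2 ^ k), FF (K, n) +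
        ∑ n ∈ Finset.Ico (2 ^ k) (2 ^ (k + 1)), FF (K, n) := by
      rw [Finset.sum_Ico_consecutive]
      · exact Nat.one_le_two_pow
      · exact Nat.pow_le_pow_right (by norm_num) (by omega)
    have h2 : ∑ n ∈ Finset.Ico (2 ^ k) (2 ^ (k + 1)), FF (K, n) = 2 ^ K := by
      have : ∀ n ∈ Finset.Ico (2 ^ k) (2 ^ (k + 1)), FF (K, n) = 2 ^ K / 2 ^ k := by
        intro n hn
        rw [Finset.mem_Ico] at hn
        unfold FF
        rw [if_pos]
        · have : Nat.log 2 n = k := (Nat.log_eq_iff (Or.inr ⟨by norm_num, by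
            have : 0 < 2 ^ k := by positivity
            omega⟩)).2 ⟨hn.1, hn.2⟩
          simp only [this]
        · exact lt_of_lt_of_le hn.2 (Nat.pow_le_pow_right (by norm_num) hk)
      rw [Finset.sum_congr rfl this, Finset.sum_const, Nat.card_Ico, nsmul_eq_mul]
      have : 2 ^ (k + 1) - 2 ^ k = 2 ^ k := by
        rw [pow_succ]; omega
      rw [this]
      push_cast
      field_simp
    rw [h3, h1, h2]
    push_cast
    ring

theorem tqg (K0 : ℕ) : ∃ (A : Finset I2) (F : I2 → ℝ) (R : ℝ), A.Nonempty ∧ 0 < R ∧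
      (∀ i ∈ A, 1 ≤ |F i|) ∧ (∀ ψ ∈ Phi, |∑ i ∈ A, F i * ψ i| ≤ R) ∧
      ∃ φ ∈ Phi, (K0 : ℝ) * R ≤ |∑ i ∈ A, (F i / |F i|) * φ i| := by
  classical
  obtain ⟨K, hK⟩ : ∃ K, K = K0 + 1 := ⟨_, rfl⟩
  have hKpos : 0 < K := by omega
  have hKr : (0 : ℝ) < K := by exact_mod_cast hKpos
  set D : Finset ℕ := Finset.Ico 1 (2 ^ K + K * 2 ^ K) with hD
  set A : Finset I2 := D.image (fun n => (K, n)) with hA
  have hmem : ∀ (K' n : ℕ), (K', n) ∈ A ↔ K' = K ∧ n ∈ D := by
    intro K' n
    rw [hA, Finset.mem_image]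
    constructor
    · rintro ⟨m, hm, h⟩
      have h1 := congrArg Prod.fst h
      have h2 := congrArg Prod.snd h
      simp only at h1 h2
      subst h2
      exact ⟨h1.symm, hm⟩
    · rintro ⟨rfl, hn⟩
      exact ⟨n, hn, rfl⟩
  have h2K : 1 ≤ 2 ^ K := Nat.one_le_two_pow
  have hKK : 0 < K * 2 ^ K := by positivity
  have htopD : top K ⊆ D := by
    apply Finset.Ico_subset_Ico_right
    omega
  have hbotD : bot K ⊆ D := by
    apply Finset.Ico_subset_Ico_left
    exact h2K
  have hFtop : ∀ n ∈ top K, FF (K, n) = 2 ^ K / 2 ^ (Nat.log 2 n) := by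
    intro n hn
    unfold top at hn
    rw [Finset.mem_Ico] at hn
    unfold FF
    rw [if_pos hn.2]
  have hFbot : ∀ n ∈ bot K, FF (K, n) = -1 := by
    intro n hn
    unfold bot at hn
    rw [Finset.mem_Ico] at hn
    unfold FF
    rw [if_neg (by simp only; omega)]
  have hDcases : ∀ n ∈ D, n ∈ top K ∨ n ∈ bot K := by
    intro n hn
    rw [hD, Finset.mem_Ico] at hn
    unfold top bot
    rw [Finset.mem_Ico, Finset.mem_Ico]
    omega
  have hFtop1 : ∀ n ∈ top K, 1 ≤ FF (K, n) := by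
    intro n hn
    rw [hFtop n hn]
    rw [le_div_iff₀ (by positivity), one_mul]
    have hn' := hn
    unfold top at hn'
    rw [Finset.mem_Ico] at hn'
    have h1 : 2 ^ Nat.log 2 n ≤ n := Nat.pow_log_le_self 2 (by omega)
    exact_mod_cast h1.trans hn'.2.le
  have hFle : ∀ n ∈ D, |FF (K, n)| ≤ 2 ^ K := by
    intro n hn
    rcases hDcases n hn with h | h
    · rw [hFtop n h, abs_of_nonneg (by positivity)]
      apply div_le_self (by positivity)
      exact one_le_pow₀ (by norm_num)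
    · rw [hFbot n h, abs_neg, abs_one]
      exact one_le_pow₀ (by norm_num)
  refine ⟨A, FF, 2 ^ K, ?_, by positivity, ?_, ?_, ?_⟩
  · exact ⟨(K, 2 ^ K), (hmem _ _).2 ⟨rfl, by rw [hD, Finset.mem_Ico]; omega⟩⟩
  · rintro ⟨K', n⟩ hi
    obtain ⟨rfl, hn⟩ := (hmem _ _).1 hi
    rcases hDcases n hn with h | h
    · exact (hFtop1 n h).trans (le_abs_self _)
    · rw [hFbot n h]; simp
  · intro ψ hψ
    rw [← ev_finset ψ A FF]
    set c' : I2 → ℝ := fun i => if i ∈ A then FF i else 0 with hc'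
    have hother : ∀ (K' n : ℕ), K' ≠ K → c' (K', n) = 0 := by
      intro K' n h
      simp only [hc']
      rw [if_neg]
      rw [hmem]
      rintro ⟨h1, _⟩
      exact h h1
    have hin : ∀ n ∈ D, c' (K, n) = FF (K, n) := by
      intro n hn
      simp only [hc']
      rw [if_pos ((hmem _ _).2 ⟨rfl, hn⟩)]
    rcases hψ with (⟨⟨K', n⟩, rfl⟩ | ⟨K', j, C, hC, hc, rfl⟩) | ⟨K', C, hC, rfl⟩
    · rw [ev_single, one_mul]
      simp only [hc']
      split_ifs with h
      · obtain ⟨rfl, hn⟩ := (hmem _ _).1 h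
        exact hFle n hn
      · rw [abs_zero]; positivity
    · rw [ev_cf, one_mul]
      by_cases h : K' = K
      · subst h
        have hCt : C ⊆ top K' := by
          intro n hn
          have := hC hn
          unfold top
          rw [Finset.mem_Ico] at this ⊢
          exact ⟨le_trans Nat.one_le_two_pow this.1, this.2⟩
        have h1 : ∀ n ∈ C, |c' (K', n)| ≤ 2 ^ K' / 2 ^ j := by
          intro n hn
          rw [hin n (htopD (hCt hn)), hFtop n (hCt hn), abs_of_nonneg (by positivity)]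
          apply div_le_div_of_nonneg_left (by positivity) (by positivity)
          have h2 := hC hn
          rw [Finset.mem_Ico] at h2
          apply pow_le_pow_right₀ (by norm_num)
          exact (Nat.le_log_iff_pow_le (by norm_num) (by
            have : 0 < 2 ^ j := by positivity
            omega)).2 h2.1
        refine (Finset.abs_sum_le_sum_abs _ _).trans ?_
        refine (Finset.sum_le_card_nsmul _ _ _ h1).trans ?_
        rw [nsmul_eq_mul]
        have h3 : (C.card : ℝ) ≤ 2 ^ j := by exact_mod_cast hc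
        calc (C.card : ℝ) * (2 ^ K' / 2 ^ j) ≤ 2 ^ j * (2 ^ K' / 2 ^ j) :=
              mul_le_mul_of_nonneg_right h3 (by positivity)
          _ = 2 ^ K' := by field_simp
      · rw [Finset.sum_eq_zero fun n _ => hother K' n h, abs_zero]
        positivity
    · rw [ev_add, ev_cf, ev_cf, one_mul]
      by_cases h : K' = K
      · subst h
        rw [Finset.sum_congr rfl fun n hn => (hin n (hbotD (hC hn))).trans (hFbot n (hC hn)),
          Finset.sum_congr rfl fun n hn => hin n (htopD hn)]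
        have h1 : ∑ n ∈ top K', FF (K', n) = K' * 2 ^ K' := sum_FF K' K' le_rfl
        rw [h1, Finset.sum_const, nsmul_eq_mul]
        have h2 : (C.card : ℝ) * -1 + (C.card : ℝ) / (K' * 2 ^ K') * (K' * 2 ^ K') = 0 := by
          field_simp
          ring
        rw [h2, abs_zero]
        positivity
      · rw [Finset.sum_eq_zero fun n _ => hother K' n h, Finset.sum_eq_zero fun n _ => hother K' n h]
        simp
  · refine ⟨_, Phi_3 K (bot K) (Finset.Subset.refl _), ?_⟩
    rw [← ev_finset _ A (fun i => FF i / |FF i|), ev_add, ev_cf, ev_cf, one_mul]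
    have hb : ∀ n ∈ bot K, (if (K, n) ∈ A then FF (K, n) / |FF (K, n)| else 0) = -1 := by
      intro n hn
      rw [if_pos ((hmem _ _).2 ⟨rfl, hbotD hn⟩), hFbot n hn]
      norm_num
    have ht : ∀ n ∈ top K, (if (K, n) ∈ A then FF (K, n) / |FF (K, n)| else 0) = 1 := by
      intro n hn
      have h1 := hFtop1 n hn
      rw [if_pos ((hmem _ _).2 ⟨rfl, htopD hn⟩), abs_of_pos (by linarith), div_self (by linarith)]
    rw [Finset.sum_congr rfl hb, Finset.sum_congr rfl ht, Finset.sum_const, Finset.sum_const,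
      nsmul_eq_mul, nsmul_eq_mul]
    have hcb : ((bot K).card : ℝ) = K * 2 ^ K := by
      unfold bot
      rw [Nat.card_Ico]
      have : 2 ^ K + K * 2 ^ K - 2 ^ K = K * 2 ^ K := by omega
      rw [this]
      push_cast
      ring
    have hct : ((top K).card : ℝ) = 2 ^ K - 1 := by
      unfold top
      rw [Nat.card_Ico, Nat.cast_sub h2K]
      push_cast
      ring
    rw [hcb, hct, div_self (by positivity)]
    have hK' : (K : ℝ) = K0 + 1 := by exact_mod_cast hK
    rw [abs_of_nonpos]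
    · rw [hK']
      nlinarith [pow_pos (show (0 : ℝ) < 2 by norm_num) K]
    · rw [hK']
      have h1 : (1 : ℝ) ≤ 2 ^ K := one_le_pow₀ (by norm_num)
      have h0 : (0 : ℝ) ≤ K0 := by positivity
      nlinarith

end Pool.Agent.U555.TQ
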