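import Mathlib

set_option autoImplicit false

open scoped ENNReal

namespace Pool.Agent.U555.TQ

/-- evaluation of a finitely supported functional at a coefficient family -/
noncomputable def ev {ι : Type} (φ : ι →₀ ℝ) (c : ι → ℝ) : ℝ := φ.sum fun i r => r * c i

theorem ev_eq {ι : Type} (φ : ι →₀ ℝ) (c : ι → ℝ) : ev φ c = ∑ i ∈ φ.support, φ i * c i := rfl

theorem ev_single {ι : Type} (i : ι) (r : ℝ) (c : ι → ℝ) :
    ev (Finsupp.single i r) c = r * c i := by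
  unfold ev
  rw [Finsupp.sum_single_index]
  simp

theorem ev_add {ι : Type} (φ ψ : ι →₀ ℝ) (c : ι → ℝ) : ev (φ + ψ) c = ev φ c + ev ψ c := by
  classical
  unfold ev
  rw [Finsupp.sum_add_index]
  · simp
  · intro i _ a b
    ring

theorem ev_sum {ι κ : Type} (s : Finset κ) (φ : κ → ι →₀ ℝ) (c : ι → ℝ) :
    ev (∑ k ∈ s, φ k) c = ∑ k ∈ s, ev (φ k) c := by
  classical
  induction s using Finset.induction_on with
  | empty => simp [ev]
  | insert a s ha ih => rw [Finset.sum_insert ha, Finset.sum_insert ha, ev_add, ih]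

/-- finite combinations on the right -/
theorem ev_finset {ι : Type} [DecidableEq ι] (φ : ι →₀ ℝ) (A : Finset ι) (c : ι → ℝ) :
    ev φ (fun i => if i ∈ A then c i else 0) = ∑ i ∈ A, c i * φ i := by
  rw [ev_eq]
  have h1 : ∑ i ∈ φ.support, φ i * (if i ∈ A then c i else 0)
      = ∑ i ∈ φ.support ∪ A, φ i * (if i ∈ A then c i else 0) := by
    apply Finset.sum_subset Finset.subset_union_left
    intro i _ hi
    rw [Finsupp.notMem_support_iff] at hi
    rw [hi, zero_mul]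
  have h2 : ∑ i ∈ A, c i * φ i = ∑ i ∈ φ.support ∪ A, φ i * (if i ∈ A then c i else 0) := by
    rw [← Finset.sum_subset (Finset.subset_union_right (s₁ := φ.support) (s₂ := A))]
    · apply Finset.sum_congr rfl
      intro i hi
      rw [if_pos hi, mul_comm]
    · intro i _ hi
      rw [if_neg hi, mul_zero]
  rw [h1, h2]

section

variable {ι : Type} (Φ : Set (ι →₀ ℝ)) (h2 : ∀ φ ∈ Φ, ∀ i, |φ i| ≤ 1)

/-- the ambient space of bounded families -/
abbrev Amb : Type := lp (fun _ : Φ => ℝ) ∞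

/-- the basis vectors in the ambient space -/
noncomputable def vec (i : ι) : Amb Φ :=
  ⟨fun φ => φ.1 i, memℓp_infty ⟨1, by
    rintro _ ⟨φ, rfl⟩
    exact h2 φ.1 φ.2 i⟩⟩

theorem vec_apply (i : ι) (φ : Φ) : (vec Φ h2 i : Φ → ℝ) φ = φ.1 i := rfl

/-- the span of the basis vectors -/
noncomputable def spn : Submodule ℝ (Amb Φ) := Submodule.span ℝ (Set.range (vec Φ h2))

/-- the space -/
noncomputable def Xs : Submodule ℝ (Amb Φ) := (spn Φ h2).topologicalClosure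

theorem vec_mem (i : ι) : vec Φ h2 i ∈ Xs Φ h2 :=
  Submodule.le_topologicalClosure _ (Submodule.subset_span ⟨i, rfl⟩)

theorem eval_cont (φ : Φ) : Continuous fun f : Amb Φ => (f : Φ → ℝ) φ :=
  (lp.evalCLM ℝ (fun _ : Φ => ℝ) ∞ φ).continuous

variable (h1 : ∀ i, Finsupp.single i (1 : ℝ) ∈ Φ)

/-- coordinates of an element of the space -/
noncomputable def crd (f : Amb Φ) (i : ι) : ℝ := (f : Φ → ℝ) ⟨Finsupp.single i 1, h1 i⟩

theorem apply_eq_ev (f : Amb Φ) (hf : f ∈ Xs Φ h2) (φ : Φ) :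
    (f : Φ → ℝ) φ = ev φ.1 (crd Φ h1 f) := by
  classical
  have hcl : IsClosed {f : Amb Φ | (f : Φ → ℝ) φ = ev φ.1 (crd Φ h1 f)} := by
    apply isClosed_eq (eval_cont Φ φ)
    simp only [ev_eq]
    apply continuous_finsetSum
    intro i _
    exact continuous_const.mul (eval_cont Φ _)
  have hsub : ((spn Φ h2 : Submodule ℝ (Amb Φ)) : Set (Amb Φ)) ⊆
      {f : Amb Φ | (f : Φ → ℝ) φ = ev φ.1 (crd Φ h1 f)} := by
    intro g hg
    induction hg using Submodule.span_induction with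
    | mem x hx =>
      obtain ⟨i, rfl⟩ := hx
      change φ.1 i = ev φ.1 (crd Φ h1 (vec Φ h2 i))
      have : crd Φ h1 (vec Φ h2 i) = fun j => if j ∈ ({i} : Finset ι) then 1 else 0 := by
        funext j
        change (Finsupp.single j (1 : ℝ)) i = _
        rw [Finsupp.single_apply]
        simp [eq_comm]
      rw [this, ev_finset]
      simp
    | zero =>
      change (0 : ℝ) = ev φ.1 (crd Φ h1 0)
      rw [ev_eq]
      symm
      apply Finset.sum_eq_zero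
      intro i _
      change _ * (0 : ℝ) = 0
      rw [mul_zero]
    | add x y _ _ hx hy =>
      change (x : Φ → ℝ) φ + (y : Φ → ℝ) φ = _
      rw [hx, hy, ev_eq, ev_eq, ev_eq, ← Finset.sum_add_distrib]
      apply Finset.sum_congr rfl
      intro i _
      change _ = _ * (crd Φ h1 x i + crd Φ h1 y i)
      ring
    | smul a x _ hx =>
      change a * (x : Φ → ℝ) φ = _
      rw [hx, ev_eq, ev_eq, Finset.mul_sum]
      apply Finset.sum_congr rfl
      intro i _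
      change _ = _ * (a * crd Φ h1 x i)
      ring
  have : f ∈ closure ((spn Φ h2 : Submodule ℝ (Amb Φ)) : Set (Amb Φ)) := hf
  exact (closure_minimal hsub hcl) this

theorem abs_ev_le (f : Amb Φ) (hf : f ∈ Xs Φ h2) (φ : ι →₀ ℝ) (hφ : φ ∈ Φ) :
    |ev φ (crd Φ h1 f)| ≤ ‖f‖ := by
  have := lp.norm_apply_le_norm (p := ∞) (by simp) f ⟨φ, hφ⟩
  rw [apply_eq_ev Φ h2 h1 f hf] at this
  exact this

end

/-- The abstract transfer: a norming family of finitely supported functionals gives a Banach space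
with a bounded biorthogonal basis; near unconditionality and truncation quasi-greediness are read
off the family. -/
theorem transfer {ι : Type} (e : ℕ ≃ ι) (Φ : Set (ι →₀ ℝ))
    (h1 : ∀ i, Finsupp.single i (1 : ℝ) ∈ Φ)
    (h2 : ∀ φ ∈ Φ, ∀ i, |φ i| ≤ 1)
    (h3 : ∀ a : ℝ, 0 < a → a ≤ 1 → ∃ C : ℝ, 0 ≤ C ∧ ∀ (c : ι → ℝ) (R : ℝ), (∀ i, |c i| ≤ 1) →
      (∀ ψ ∈ Φ, |ev ψ c| ≤ R) → ∀ A : Finset ι, (∀ i ∈ A, a ≤ |c i|) →
      ∀ φ ∈ Φ, |∑ i ∈ A, c i * φ i| ≤ C * R)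
    (h4 : ∀ K : ℕ, ∃ (A : Finset ι) (F : ι → ℝ) (R : ℝ), A.Nonempty ∧ 0 < R ∧
      (∀ i ∈ A, 1 ≤ |F i|) ∧ (∀ ψ ∈ Φ, |∑ i ∈ A, F i * ψ i| ≤ R) ∧
      ∃ φ ∈ Φ, (K : ℝ) * R ≤ |∑ i ∈ A, (F i / |F i|) * φ i|) :
    ∃ (𝕂 : Type) (_ : RCLike 𝕂) (X : Type) (_ : AddCommGroup X) (_ : Module 𝕂 X)
      (q : X → ℝ) (κ : ℝ) (x : ℕ → X) (xs : ℕ → X →ₗ[𝕂] 𝕂),
      (∀ f : X, 0 ≤ q f) ∧
      (∀ f : X, q f = 0 → f = 0) ∧
      (∀ (c : 𝕂) (f : X), q (c • f) = ‖c‖ * q f) ∧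
      (∀ f g : X, q (f + g) ≤ κ * (q f + q g)) ∧
      (∀ u : ℕ → X, (∀ ε : ℝ, 0 < ε → ∃ N : ℕ, ∀ m ≥ N, ∀ n ≥ N, q (u m - u n) < ε) →
        ∃ f : X, ∀ ε : ℝ, 0 < ε → ∃ N : ℕ, ∀ n ≥ N, q (u n - f) < ε) ∧
      (∃ B : ℝ, ∀ n : ℕ, q (x n) ≤ B) ∧
      (∃ M : ℝ, ∀ (n : ℕ) (f : X), ‖xs n f‖ ≤ M * q f) ∧
      (∀ m n : ℕ, xs m (x n) = if m = n then 1 else 0) ∧
      (∀ f : X, ∀ ε : ℝ, 0 < ε → ∃ g ∈ Submodule.span 𝕂 (Set.range x), q (f - g) < ε) ∧
      (∀ a : ℝ, 0 < a → a ≤ 1 → ∃ C : ℝ, ∀ f : X, (∀ n : ℕ, ‖xs n f‖ ≤ 1) →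
        ∀ A : Finset ℕ, (∀ n ∈ A, a ≤ ‖xs n f‖) →
          q (∑ n ∈ A, xs n f • x n) ≤ C * q f) ∧
      ¬ (∃ C : ℝ, ∀ f : X, ∀ A : Finset ℕ, A.Nonempty →
          (∀ n ∈ A, ∀ k : ℕ, k ∉ A → ‖xs k f‖ ≤ ‖xs n f‖) →
          ∀ t : ℝ, (∀ n ∈ A, t ≤ ‖xs n f‖) →
            t * q (∑ n ∈ A, (xs n f / ((‖xs n f‖ : ℝ) : 𝕂)) • x n) ≤ C * q f) := by
  classical
  have hcomp : CompleteSpace (Xs Φ h2) :=
    (Submodule.isClosed_topologicalClosure (spn Φ h2)).completeSpace_coe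
  set x : ℕ → Xs Φ h2 := fun n => ⟨vec Φ h2 (e n), vec_mem Φ h2 (e n)⟩ with hx
  set xs : ℕ → Xs Φ h2 →ₗ[ℝ] ℝ := fun n =>
    { toFun := fun f => crd Φ h1 f.1 (e n)
      map_add' := fun f g => rfl
      map_smul' := fun a f => rfl } with hxs
  have hxsa : ∀ n (f : Xs Φ h2), xs n f = crd Φ h1 f.1 (e n) := fun n f => rfl
  have hsum : ∀ (A : Finset ℕ) (c : ℕ → ℝ) (φ : Φ),
      ((∑ n ∈ A, c n • x n : Xs Φ h2) : Φ → ℝ) φ = ∑ n ∈ A, c n * φ.1 (e n) := by
    intro A c φ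
    rw [Submodule.coe_sum]
    induction A using Finset.induction_on with
    | empty => rfl
    | insert a s ha ih =>
      rw [Finset.sum_insert ha, Finset.sum_insert ha, lp.coeFn_add, Pi.add_apply, ih]
      rfl
  have hev : ∀ (f : Xs Φ h2) (φ : Φ), (f.1 : Φ → ℝ) φ = ev φ.1 (crd Φ h1 f.1) :=
    fun f φ => apply_eq_ev Φ h2 h1 f.1 f.2 φ
  refine ⟨ℝ, inferInstance, Xs Φ h2, inferInstance, inferInstance, fun f => ‖f‖, 1, x, xs,
    fun f => norm_nonneg f, fun f hf => norm_eq_zero.1 hf, fun c f => norm_smul c f,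
    fun f g => by rw [one_mul]; exact norm_add_le f g, ?_, ?_, ?_, ?_, ?_, ?_, ?_⟩
  · intro u hu
    have hc : CauchySeq u := by
      rw [Metric.cauchySeq_iff]
      intro ε hε
      obtain ⟨N, hN⟩ := hu ε hε
      refine ⟨N, fun m hm n hn => ?_⟩
      rw [dist_eq_norm]
      exact hN m hm n hn
    obtain ⟨f, hf⟩ := cauchySeq_tendsto_of_complete hc
    refine ⟨f, fun ε hε => ?_⟩
    rw [Metric.tendsto_atTop] at hf
    obtain ⟨N, hN⟩ := hf ε hε
    refine ⟨N, fun n hn => ?_⟩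
    have := hN n hn
    rwa [dist_eq_norm] at this
  · refine ⟨1, fun n => ?_⟩
    change ‖vec Φ h2 (e n)‖ ≤ 1
    apply lp.norm_le_of_forall_le zero_le_one
    intro φ
    exact h2 φ.1 φ.2 (e n)
  · refine ⟨1, fun n f => ?_⟩
    rw [one_mul]
    exact lp.norm_apply_le_norm (p := ∞) (by simp) f.1 _
  · intro m n
    change (Finsupp.single (e m) (1 : ℝ)) (e n) = _
    rw [Finsupp.single_apply]
    by_cases h : m = n
    · rw [if_pos h, if_pos (by rw [h])]
    · rw [if_neg h, if_neg (fun h' => h (e.injective h'))]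
  · intro f ε hε
    have hf : f.1 ∈ closure ((spn Φ h2 : Submodule ℝ (Amb Φ)) : Set (Amb Φ)) := f.2
    rw [Metric.mem_closure_iff] at hf
    obtain ⟨g, hg, hfg⟩ := hf ε hε
    have hgX : g ∈ Xs Φ h2 := Submodule.le_topologicalClosure _ hg
    refine ⟨⟨g, hgX⟩, ?_, ?_⟩
    · have hmap : Submodule.map (Xs Φ h2).subtype (Submodule.span ℝ (Set.range x))
          = spn Φ h2 := by
        rw [Submodule.map_span]
        unfold spn
        congr 1
        ext v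
        constructor
        · rintro ⟨_, ⟨n, rfl⟩, rfl⟩
          exact ⟨e n, rfl⟩
        · rintro ⟨i, rfl⟩
          exact ⟨x (e.symm i), ⟨e.symm i, rfl⟩, by simp [hx]⟩
      have hg' : g ∈ Submodule.map (Xs Φ h2).subtype (Submodule.span ℝ (Set.range x)) := by
        rw [hmap]; exact hg
      obtain ⟨y, hy, hyg⟩ := hg'
      have : y = ⟨g, hgX⟩ := Subtype.ext hyg
      rw [← this]
      exact hy
    · rw [dist_eq_norm] at hfg
      exact hfg
  · intro a ha ha1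
    obtain ⟨C, hC0, hC⟩ := h3 a ha ha1
    refine ⟨C, fun f hf A hA => ?_⟩
    change ‖((∑ n ∈ A, xs n f • x n : Xs Φ h2) : Amb Φ)‖ ≤ C * ‖f‖
    apply lp.norm_le_of_forall_le (mul_nonneg hC0 (norm_nonneg _))
    intro φ
    rw [hsum A (fun n => xs n f) φ]
    have := hC (crd Φ h1 f.1) ‖f‖ (fun i => by
        have := hf (e.symm i)
        rw [hxsa, Equiv.apply_symm_apply] at this
        exact this)
      (fun ψ hψ => abs_ev_le Φ h2 h1 f.1 f.2 ψ hψ) (A.map e.toEmbedding) (by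
        intro i hi
        rw [Finset.mem_map] at hi
        obtain ⟨n, hn, rfl⟩ := hi
        exact hA n hn) φ.1 φ.2
    rw [Finset.sum_map] at this
    exact this
  · rintro ⟨C, hC⟩
    obtain ⟨K, hK⟩ := exists_nat_gt (max C 0)
    have hKC : C < K := lt_of_le_of_lt (le_max_left _ _) hK
    have hK0 : (0 : ℝ) < K := lt_of_le_of_lt (le_max_right _ _) hK
    obtain ⟨A, F, R, hAne, hR, hF1, hFR, φ, hφ, hφK⟩ := h4 K
    set B : Finset ℕ := A.map e.symm.toEmbedding with hB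
    have hmemB : ∀ n, n ∈ B ↔ e n ∈ A := by
      intro n
      rw [hB, Finset.mem_map]
      constructor
      · rintro ⟨i, hi, rfl⟩
        simpa using hi
      · intro hn
        exact ⟨e n, hn, by simp⟩
    have hsumB : ∀ g : ι → ℝ, ∑ n ∈ B, g (e n) = ∑ i ∈ A, g i := by
      intro g
      rw [hB, Finset.sum_map]
      simp
    set f : Xs Φ h2 := ∑ n ∈ B, F (e n) • x n with hf
    have hcrd : ∀ n, xs n f = if n ∈ B then F (e n) else 0 := by
      intro n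
      rw [hf, hxsa]
      unfold crd
      rw [hsum B (fun n => F (e n))]
      simp only [Finsupp.single_apply, e.injective.eq_iff, mul_ite, mul_one, mul_zero]
      rw [Finset.sum_ite_eq]
    have hfR : ‖f‖ ≤ R := by
      change ‖(f : Amb Φ)‖ ≤ R
      apply lp.norm_le_of_forall_le hR.le
      intro ψ
      rw [hf, hsum B (fun n => F (e n)) ψ, hsumB (fun i => F i * ψ.1 i)]
      exact hFR ψ.1 ψ.2
    have key := hC f B (by
        obtain ⟨i, hi⟩ := hAne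
        exact ⟨e.symm i, by rw [hmemB]; simpa using hi⟩)
      (by
        intro n _ k hk
        rw [hcrd k, if_neg hk, norm_zero]
        exact norm_nonneg _) 1
      (by
        intro n hn
        rw [hcrd n, if_pos hn]
        exact hF1 _ ((hmemB n).1 hn))
    have hlow : (K : ℝ) * R ≤
        ‖∑ n ∈ B, (xs n f / ((‖xs n f‖ : ℝ) : ℝ)) • x n‖ := by
      refine hφK.trans ?_
      have h5 := lp.norm_apply_le_norm (p := ∞) (by simp)
        ((∑ n ∈ B, (xs n f / ((‖xs n f‖ : ℝ) : ℝ)) • x n : Xs Φ h2) : Amb Φ) ⟨φ, hφ⟩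
      rw [hsum B (fun n => xs n f / ((‖xs n f‖ : ℝ) : ℝ))] at h5
      refine le_trans (le_of_eq ?_) h5
      rw [← hsumB (fun i => F i / |F i| * φ i), Real.norm_eq_abs]
      congr 1
      apply Finset.sum_congr rfl
      intro n hn
      rw [hcrd n, if_pos hn]
      rfl
    rw [one_mul] at key
    have h6 : (K : ℝ) * R ≤ C * ‖f‖ := hlow.trans key
    rcases le_or_gt 0 C with hC0 | hC0
    · have : C * ‖f‖ ≤ C * R := mul_le_mul_of_nonneg_left hfR hC0
      nlinarith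
    · have : C * ‖f‖ ≤ 0 := mul_nonpos_of_nonpos_of_nonneg hC0.le (norm_nonneg _)
      nlinarith [mul_pos hK0 hR]

end Pool.Agent.U555.TQ
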